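import Pool.Agent.L7h95.CD.Stm

/-! # Project CD, part SNK -/

set_option autoImplicit false

namespace Pool.Agent.L7h47.CD

open Finset Function
open Pool.Agent.L7h95.CD

/-- Extension by zero preserves the Hamming distance. -/
lemma hammingDist_extend {ι κ : Type} [Fintype ι] [Fintype κ] [DecidableEq κ] (e : ι ↪ κ)
    (y z : ι → ZMod 2) :
    hammingDist (extend e y 0) (extend e z 0) = hammingDist y z := by
  unfold hammingDist
  rw [← card_map e]
  congr 1
  ext i
  simp only [mem_filter, mem_univ, true_and, mem_map]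
  constructor
  · intro h
    by_cases hi : ∃ a, e a = i
    · obtain ⟨a, rfl⟩ := hi
      rw [e.injective.extend_apply, e.injective.extend_apply] at h
      exact ⟨a, h, rfl⟩
    · rw [extend_apply' _ _ _ hi, extend_apply' _ _ _ hi] at h
      exact absurd rfl h
  · rintro ⟨a, ha, rfl⟩
    rw [e.injective.extend_apply, e.injective.extend_apply]
    exact ha

/-- Part SNK. -/
theorem s_SNK (hCOD : S_COD) (hGRA : S_GRA) (hDI1 : S_DI1) (hDI2 : S_DI2) (hDI3 : S_DI3) :
    S_SNK := by
  intro p r n k hr hpr hn hk
  rcases Nat.eq_zero_or_pos p with hp | hp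
  · subst hp
    rw [pow_zero] at hk
    exact ⟨fun _ => 0, ⟨fun i hi => by omega, fun i j hij hj => by omega⟩⟩
  · obtain ⟨φ, hφ⟩ := hCOD p r hr hpr
    obtain ⟨c, γ, hG⟩ := hGRA p hp
    have hcard : Fintype.card (Fin p ⊕ (Fin 4 × Fin r)) ≤ Fintype.card (Fin n) := by
      simp only [Fintype.card_sum, Fintype.card_prod, Fintype.card_fin]
      omega
    obtain ⟨e⟩ := Function.Embedding.nonempty_of_card_le hcard
    refine ⟨fun i => extend e (yv φ c γ ((i + 4) / 5) ((i + 4) % 5)) 0, ⟨fun i hi => ?_,
      fun i j hij hj => ?_⟩⟩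
    · change hammingDist (extend e _ 0) (extend e _ 0) = 1
      rw [hammingDist_extend]
      rcases Nat.lt_or_ge ((i + 4) % 5) 4 with h | h
      · have h1 : (i + 1 + 4) / 5 = (i + 4) / 5 := by omega
        have h2 : (i + 1 + 4) % 5 = (i + 4) % 5 + 1 := by omega
        rw [h1, h2, hDI1 p r φ c γ _ _ _ (by omega) (by omega)]
        omega
      · have h1 : (i + 1 + 4) / 5 = (i + 4) / 5 + 1 := by omega
        have h2 : (i + 1 + 4) % 5 = 0 := by omega
        have h3 : (i + 4) % 5 = 4 := by omega
        rw [h1, h2, h3]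
        rcases hDI2 p r φ c γ hφ hG ((i + 4) / 5) 4 0 le_rfl (by omega) (fun _ => rfl)
          (by omega) with h4 | h4
        · rw [h4]
        · omega
    · change min 3 (j - i) ≤ hammingDist (extend e _ 0) (extend e _ 0)
      rw [hammingDist_extend]
      have hv : (i + 4) / 5 ≤ (j + 4) / 5 := Nat.div_le_div_right (by omega)
      have hv0 : (i + 4) / 5 = 0 → (i + 4) % 5 = 4 := by omega
      rcases Nat.lt_or_ge ((i + 4) / 5 + 1) ((j + 4) / 5) with h | h
      · exact (min_le_left _ _).trans (hDI3 p r φ c γ hφ hG _ _ _ _ (by omega) (by omega) hv0 h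
          (by omega))
      · rcases Nat.lt_or_ge ((i + 4) / 5) ((j + 4) / 5) with h' | h'
        · have h1 : (j + 4) / 5 = (i + 4) / 5 + 1 := by omega
          rw [h1]
          rcases hDI2 p r φ c γ hφ hG ((i + 4) / 5) ((i + 4) % 5) ((j + 4) % 5) (by omega)
            (by omega) hv0 (by omega) with h4 | h4
          · rw [h4]
            refine (min_le_right _ _).trans ?_
            omega
          · exact (min_le_left _ _).trans (by omega)
        · have h1 : (j + 4) / 5 = (i + 4) / 5 := by omega
          rw [h1, hDI1 p r φ c γ _ _ _ (by omega) (by omega)]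
          refine (min_le_right _ _).trans ?_
          omega

end Pool.Agent.L7h47.CD
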